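import Mathlib
set_option autoImplicit false
namespace Pool.Agent.H.MP_c77722_an
open Set Metric

variable {X : Type} [NormedAddCommGroup X] [NormedSpace ℝ X]

def Sep (δ : ℝ) (F : Set (Set X)) : Prop :=
  ∀ s ∈ F, ∀ t ∈ F, ∀ x ∈ s, ∀ y ∈ t, dist x y < δ → s = t

def Nice (r : ℝ) (s : Set X) : Prop :=
  Convex ℝ s ∧ ∀ x ∈ s, ∀ y ∈ s, dist x y ≤ 2 * r

def Cov (r : ℝ) (A : Set X) : Prop :=
  ∃ F : ℕ × ℕ → Set (Set X), (∀ p, Sep (1 / ((p.2 : ℝ) + 1)) (F p)) ∧
    (∀ p, ∀ s ∈ F p, Nice r s) ∧ ∀ z ∈ A, ∃ p, ∃ s ∈ F p, z ∈ s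

theorem Cov.mk {ι : Type} [Countable ι] (r : ℝ) (A : Set X) (G : ι → Set (Set X)) (δ : ι → ℝ)
    (hδ : ∀ i, 0 < δ i) (hs : ∀ i, Sep (δ i) (G i)) (hn : ∀ i, ∀ s ∈ G i, Nice r s)
    (hc : ∀ z ∈ A, ∃ i, ∃ s ∈ G i, z ∈ s) : Cov r A := by
  obtain ⟨e, he⟩ := exists_injective_nat ι
  refine ⟨fun p => {s | ∃ i, e i = p.1 ∧ 1 / ((p.2 : ℝ) + 1) ≤ δ i ∧ s ∈ G i}, ?_, ?_, ?_⟩
  · intro p s hs1 t ht x hx y hy hxy
    obtain ⟨i, hi, hi2, hi3⟩ := hs1
    obtain ⟨j, hj, -, hj3⟩ := ht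
    have : i = j := he (hi.trans hj.symm)
    subst this
    exact hs i s hi3 t hj3 x hx y hy (hxy.trans_le hi2)
  · intro p s hs1
    obtain ⟨i, -, -, hi3⟩ := hs1
    exact hn i s hi3
  · intro z hz
    obtain ⟨i, s, hs1, hzs⟩ := hc z hz
    obtain ⟨k, hk⟩ := exists_nat_one_div_lt (hδ i)
    exact ⟨(e i, k), s, ⟨i, rfl, hk.le, hs1⟩, hzs⟩

theorem hb (Y : Submodule ℝ X) (r : ℝ) (hr : 0 < r) (z : X) (hz : z ∉ thickening r (Y : Set X)) :
    ∃ f : X →L[ℝ] ℝ, ‖f‖ ≤ 1 ∧ (∀ y ∈ Y, f y = 0) ∧ r ≤ f z := by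
  obtain ⟨f, hf⟩ := geometric_hahn_banach_open_point (Y.convex.thickening r) isOpen_thickening hz
  have h0 : 0 < f z := by
    have := hf 0 (self_subset_thickening hr _ Y.zero_mem)
    simpa using this
  have hY : ∀ y ∈ Y, f y = 0 := by
    intro y hy
    by_contra h
    have := hf ((f z / f y) • y) (self_subset_thickening hr _ (Y.smul_mem _ hy))
    rw [map_smul, smul_eq_mul, div_mul_cancel₀ _ h] at this
    exact lt_irrefl _ this
  have hb : ‖f‖ ≤ f z / r := by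
    refine ContinuousLinearMap.opNorm_le_of_ball hr (by positivity) ?_ |>.trans le_rfl
    intro x hx
    by_cases hx0 : x = 0
    · simp [hx0]
    have hxp : 0 < ‖x‖ := norm_pos_iff.2 hx0
    have key : ∀ w : X, ‖w‖ = ‖x‖ → f w ≤ f z / r * ‖x‖ := by
      intro w hw
      refine le_of_forall_pos_le_add fun ε hε => ?_
      by_contra hcon
      push Not at hcon
      have hpos : 0 < f z / r * ‖x‖ := by positivity
      have hfw : 0 < f w := by linarith
      have hm : (f z / f w) • w ∈ thickening r (Y : Set X) := by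
        rw [mem_thickening_iff]
        refine ⟨0, Y.zero_mem, ?_⟩
        rw [dist_zero_right, norm_smul, hw, Real.norm_of_nonneg (by positivity), div_mul_eq_mul_div,
          div_lt_iff₀ hfw]
        have : f z / r * ‖x‖ < f w := by linarith
        rw [div_mul_eq_mul_div, div_lt_iff₀ hr] at this
        linarith
      have := hf _ hm
      rw [map_smul, smul_eq_mul, div_mul_cancel₀ _ hfw.ne'] at this
      exact lt_irrefl _ this
    rw [Real.norm_eq_abs, abs_le]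
    have h1 := key x rfl
    have h2 := key (-x) (norm_neg x)
    rw [map_neg] at h2
    constructor <;> linarith
  refine ⟨(r / f z) • f, ?_, ?_, ?_⟩
  · rw [norm_smul, Real.norm_of_nonneg (by positivity)]
    calc r / f z * ‖f‖ ≤ r / f z * (f z / r) := by gcongr
      _ = 1 := by field_simp
  · intro y hy
    simp [hY y hy]
  · simp only [ContinuousLinearMap.smul_apply, smul_eq_mul]
    rw [div_mul_cancel₀ _ h0.ne']

theorem half (Y : Submodule ℝ X) (s r : ℝ) (hr : 0 < r) (hsr : s < r) :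
    ∃ H : ℕ → Set (Set X), (∀ m : ℕ, Sep (1 / ((m : ℝ) + 1)) (H m)) ∧
      (∀ m, ∀ h ∈ H m, Convex ℝ h ∧ ∀ z ∈ h, ∀ y ∈ Y, s ≤ dist z y) ∧
      ∀ z, z ∉ thickening r (Y : Set X) → ∃ m, ∃ h ∈ H m, z ∈ h := by
  obtain ⟨lo, wf⟩ := exists_wellFoundedLT (X →L[ℝ] ℝ)
  set T : Set (X →L[ℝ] ℝ) := {f | ‖f‖ ≤ 1 ∧ ∀ y ∈ Y, f y = 0} with hT
  have lip : ∀ f ∈ T, ∀ x y : X, f x - f y ≤ dist x y := by
    intro f hf x y
    rw [← map_sub, dist_eq_norm]
    calc f (x - y) ≤ ‖f (x - y)‖ := le_abs_self _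
      _ ≤ ‖f‖ * ‖x - y‖ := f.le_opNorm _
      _ ≤ 1 * ‖x - y‖ := by gcongr; exact hf.1
      _ = _ := one_mul _
  refine ⟨fun m => {h | ∃ f ∈ T, h = {z | s + 1 / ((m : ℝ) + 1) ≤ f z ∧
    ∀ g ∈ T, lo.lt g f → g z ≤ s}}, ?_, ?_, ?_⟩
  · intro m h hh h' hh' x hx y hy hxy
    obtain ⟨f, hf, rfl⟩ := hh
    obtain ⟨g, hg, rfl⟩ := hh'
    rcases @lt_trichotomy _ lo f g with hl | hl | hl
    · have h1 := lip f hf x y
      have h2 := hy.2 f hf hl
      have h3 := hx.1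
      linarith
    · rw [hl]
    · have h1 := lip g hg y x
      have h2 := hx.2 g hg hl
      have h3 := hy.1
      rw [dist_comm] at h1
      linarith
  · intro m h hh
    obtain ⟨f, hf, rfl⟩ := hh
    refine ⟨?_, ?_⟩
    · intro x hx y hy a b ha hb hab
      refine ⟨?_, fun g hg hl => ?_⟩
      · have h1 := hx.1
        have h2 := hy.1
        simp only [map_add, map_smul, smul_eq_mul]
        have h3 := mul_le_mul_of_nonneg_left h1 ha
        have h4 := mul_le_mul_of_nonneg_left h2 hb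
        have h5 : a * (s + 1 / ((m : ℝ) + 1)) + b * (s + 1 / ((m : ℝ) + 1)) = s + 1 / ((m : ℝ) + 1) := by
          rw [← add_mul, hab, one_mul]
        linarith
      · have h1 := hx.2 g hg hl
        have h2 := hy.2 g hg hl
        simp only [map_add, map_smul, smul_eq_mul]
        have h3 := mul_le_mul_of_nonneg_left h1 ha
        have h4 := mul_le_mul_of_nonneg_left h2 hb
        have h5 : a * s + b * s = s := by rw [← add_mul, hab, one_mul]
        linarith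
    · intro z hz y hy
      have h1 := lip f hf z y
      have h2 := hz.1
      have h3 : (0 : ℝ) < 1 / ((m : ℝ) + 1) := by positivity
      rw [hf.2 y hy] at h1
      linarith
  · intro z hz
    obtain ⟨f0, h1, h2, h3⟩ := hb Y r hr z hz
    obtain ⟨f, hf, hmin⟩ := wf.wf.has_min {f | f ∈ T ∧ s < f z} ⟨f0, ⟨h1, h2⟩, by linarith⟩
    obtain ⟨m, hm⟩ := exists_nat_one_div_lt (sub_pos.2 hf.2)
    refine ⟨m, _, ⟨f, hf.1, rfl⟩, by linarith, fun g hg hl => ?_⟩
    by_contra hcon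
    exact hmin g ⟨hg, not_le.1 hcon⟩ hl

theorem succ (r : ℝ) (Y : Submodule ℝ X) (b : X) (h : Cov r (thickening r (Y : Set X))) :
    Cov r (thickening r ((Y ⊔ Submodule.span ℝ {b} : Submodule ℝ X) : Set X)) := by
  obtain ⟨F, h1, h2, h3⟩ := h
  refine Cov.mk (ι := ℚ × (ℕ × ℕ)) r _
    (fun i => {t | ∃ s ∈ F i.2, t = {z | z - (i.1 : ℝ) • b ∈ s}})
    (fun i => 1 / ((i.2.2 : ℝ) + 1)) (fun i => by positivity) ?_ ?_ ?_
  · intro i t ht t' ht' x hx y hy hxy
    obtain ⟨s, hs, rfl⟩ := ht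
    obtain ⟨s', hs', rfl⟩ := ht'
    have := h1 i.2 s hs s' hs' _ hx _ hy (by rwa [dist_sub_right])
    rw [this]
  · intro i t ht
    obtain ⟨s, hs, rfl⟩ := ht
    refine ⟨?_, fun x hx y hy => ?_⟩
    · intro x hx y hy a c ha hc hac
      have := (h2 _ s hs).1 hx hy ha hc hac
      have e : a • (x - (i.1 : ℝ) • b) + c • (y - (i.1 : ℝ) • b) = a • x + c • y - (i.1 : ℝ) • b := by
        have : a • ((i.1 : ℝ) • b) + c • ((i.1 : ℝ) • b) = (i.1 : ℝ) • b := by
          rw [← add_smul, hac, one_smul]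
        rw [smul_sub, smul_sub]
        rw [sub_add_sub_comm, this]
      rw [e] at this
      exact this
    · have := (h2 _ s hs).2 _ hx _ hy
      rwa [dist_sub_right] at this
  · intro z hz
    rw [mem_thickening_iff] at hz
    obtain ⟨y, hy, hd⟩ := hz
    obtain ⟨y0, hy0, w, hw, rfl⟩ := Submodule.mem_sup.1 hy
    obtain ⟨t, rfl⟩ := Submodule.mem_span_singleton.1 hw
    have hopen : IsOpen {u : ℝ | dist z (y0 + u • b) < r} := isOpen_lt (by fun_prop) continuous_const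
    obtain ⟨q, hq⟩ := Rat.denseRange_cast.exists_mem_open hopen ⟨t, hd⟩
    have hm : z - (q : ℝ) • b ∈ thickening r (Y : Set X) := by
      rw [mem_thickening_iff]
      refine ⟨y0, hy0, ?_⟩
      have : dist (z - (q : ℝ) • b) y0 = dist z (y0 + (q : ℝ) • b) := by
        rw [dist_eq_norm, dist_eq_norm]; congr 1; abel
      rw [this]; exact hq
    obtain ⟨p, s, hs, hzs⟩ := h3 _ hm
    exact ⟨(q, p), _, ⟨s, hs, rfl⟩, hzs⟩

end Pool.Agent.H.MP_c77722_an
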