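import Pool.Agent.H.MP_c77722_an.A
set_option autoImplicit false
namespace Pool.Agent.H.MP_c77722_an
open Set Metric

variable {X : Type} [NormedAddCommGroup X] [NormedSpace ℝ X]

theorem memspan (lo : LinearOrder X) (S : Set X) (y : X) (hy : y ∈ Submodule.span ℝ S) :
    y = 0 ∨ ∃ b ∈ S, y ∈ Submodule.span ℝ {x | lo.le x b} := by
  induction hy using Submodule.span_induction with
  | mem x hx => exact Or.inr ⟨x, hx, Submodule.subset_span (lo.le_refl x)⟩
  | zero => exact Or.inl rfl
  | add x y _ _ hx hy =>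
    rcases hx with rfl | ⟨b, hb, hx⟩
    · simpa using hy
    rcases hy with rfl | ⟨c, hc, hy⟩
    · exact Or.inr ⟨b, hb, by simpa using hx⟩
    rcases lo.le_total b c with h | h
    · exact Or.inr ⟨c, hc, Submodule.add_mem _
        (Submodule.span_mono (fun w hw => lo.le_trans _ _ _ hw h) hx) hy⟩
    · exact Or.inr ⟨b, hb, Submodule.add_mem _ hx
        (Submodule.span_mono (fun w hw => lo.le_trans _ _ _ hw h) hy)⟩
  | smul a x _ hx =>
    rcases hx with rfl | ⟨b, hb, hx⟩
    · exact Or.inl (smul_zero a)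
    · exact Or.inr ⟨b, hb, Submodule.smul_mem _ _ hx⟩

theorem lower (lo : LinearOrder X) (wf : WellFounded lo.lt) (r : ℝ) (hr : 0 < r) (S : Set X)
    (hS : ∀ b ∈ S, ∀ c, lo.lt c b → c ∈ S)
    (h : ∀ b ∈ S, Cov r (thickening r (Submodule.span ℝ {x | lo.le x b} : Set X))) :
    Cov r (thickening r (Submodule.span ℝ S : Set X)) := by
  choose! F h1 h2 h3 using h
  have hh := fun (b : X) (n : ℕ) => half (Submodule.span ℝ {x | lo.lt x b})
    (r - 1 / ((n : ℝ) + 1) / 2) r hr (by
      have : (0 : ℝ) < 1 / ((n : ℝ) + 1) / 2 := by positivity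
      linarith)
  choose H k1 k2 k3 using hh
  refine Cov.mk (ι := Option (ℕ × ℕ × (ℕ × ℕ))) r _
    (fun o => o.elim {ball 0 r} fun i => {t | ∃ b ∈ S, ∃ s ∈ F b i.2.2, ∃ g ∈ H b i.1 i.2.1,
      t = s ∩ g ∩ thickening (r - 1 / ((i.1 : ℝ) + 1))
        (Submodule.span ℝ {x | lo.le x b} : Set X)})
    (fun o => o.elim 1 fun i => min (1 / ((i.1 : ℝ) + 1) / 2)
      (min (1 / ((i.2.1 : ℝ) + 1)) (1 / ((i.2.2.2 : ℝ) + 1)))) ?_ ?_ ?_ ?_
  · intro o
    cases o with
    | none => exact one_pos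
    | some i =>
      simp only [Option.elim]
      positivity
  · intro o
    cases o with
    | none =>
      intro s hs t ht _ _ _ _ _
      exact (show s = ball 0 r from hs).trans (show t = ball 0 r from ht).symm
    | some i =>
      intro t ht t' ht' x hx y hy hxy
      obtain ⟨b, hb, s, hs, g, hg, rfl⟩ := ht
      obtain ⟨c, hc, s', hs', g', hg', rfl⟩ := ht'
      simp only [Option.elim, lt_min_iff] at hxy
      have key : ∀ b c : X, lo.lt b c → ∀ x y : X, ∀ g ∈ H c i.1 i.2.1, y ∈ g →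
          x ∈ thickening (r - 1 / ((i.1 : ℝ) + 1)) (Submodule.span ℝ {x | lo.le x b} : Set X) →
          dist x y < 1 / ((i.1 : ℝ) + 1) / 2 → False := by
        intro b c hbc x y g hg hy hx hxy
        obtain ⟨w, hw, hd⟩ := mem_thickening_iff.1 hx
        have := (k2 c i.1 _ g hg).2 y hy w
          (Submodule.span_mono (fun v hv => @lt_of_le_of_lt _ lo.toPartialOrder.toPreorder _ _ _ hv hbc) hw)
        have h4 := dist_triangle y x w
        rw [dist_comm y x] at h4
        linarith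
      rcases @lt_trichotomy _ lo b c with hl | hl | hl
      · exact (key b c hl x y g' hg' hy.1.2 hx.2 hxy.1).elim
      · subst hl
        rw [h1 b hb _ s hs s' hs' x hx.1.1 y hy.1.1 hxy.2.2,
          k1 b i.1 _ g hg g' hg' x hx.1.2 y hy.1.2 hxy.2.1]
      · exact (key c b hl y x g hg hx.1.2 hy.2 (by rw [dist_comm]; exact hxy.1)).elim
  · intro o
    cases o with
    | none =>
      intro s hs
      rw [show s = ball 0 r from hs]
      refine ⟨convex_ball _ _, fun x hx y hy => ?_⟩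
      have h4 := dist_triangle_right x y 0
      rw [mem_ball] at hx hy
      linarith
    | some i =>
      intro t ht
      obtain ⟨b, hb, s, hs, g, hg, rfl⟩ := ht
      exact ⟨((h2 b hb _ s hs).1.inter (k2 b i.1 _ g hg).1).inter
        ((Submodule.convex _).thickening _),
        fun x hx y hy => (h2 b hb _ s hs).2 x hx.1.1 y hy.1.1⟩
  · intro z hz
    by_cases h0 : z ∈ ball (0 : X) r
    · exact ⟨none, _, rfl, h0⟩
    have key : ∀ S' : Set X, z ∈ thickening r (Submodule.span ℝ S' : Set X) →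
        ∃ b ∈ S', z ∈ thickening r (Submodule.span ℝ {x | lo.le x b} : Set X) := by
      intro S' hz
      obtain ⟨y, hy, hd⟩ := mem_thickening_iff.1 hz
      rcases memspan lo S' y hy with rfl | ⟨b, hb, hy⟩
      · exact (h0 hd).elim
      · exact ⟨b, hb, mem_thickening_iff.2 ⟨y, hy, hd⟩⟩
    obtain ⟨b, hb, hmin⟩ := wf.has_min
      {b | b ∈ S ∧ z ∈ thickening r (Submodule.span ℝ {x | lo.le x b} : Set X)} (key S hz)
    have hn : z ∉ thickening r (Submodule.span ℝ {x | lo.lt x b} : Set X) := by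
      intro hc
      obtain ⟨c, hc, hzc⟩ := key _ hc
      exact hmin c ⟨hS b hb.1 c hc, hzc⟩ hc
    obtain ⟨y, hy, hd⟩ := mem_thickening_iff.1 hb.2
    obtain ⟨n, hn2⟩ := exists_nat_one_div_lt (sub_pos.2 hd)
    obtain ⟨m, g, hg, hzg⟩ := k3 b n z hn
    obtain ⟨p, s, hs, hzs⟩ := h3 b hb.1 z hb.2
    exact ⟨some (n, m, p), _, ⟨b, hb.1, s, hs, g, hg, rfl⟩, ⟨hzs, hzg⟩,
      mem_thickening_iff.2 ⟨y, hy, by linarith⟩⟩

theorem covAll (r : ℝ) (hr : 0 < r) : Cov r (univ : Set X) := by
  obtain ⟨lo, wf⟩ := exists_wellFoundedLT X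
  have hall : ∀ b : X, Cov r (thickening r (Submodule.span ℝ {x | lo.le x b} : Set X)) := by
    intro b
    induction b using wf.wf.induction with
    | _ b ih =>
      have h1 := lower lo wf.wf r hr {x | lo.lt x b}
        (fun c hc d hd => @lt_trans _ lo.toPartialOrder.toPreorder _ _ _ hd hc) (fun c hc => ih c hc)
      have h2 := succ r _ b h1
      rw [← Submodule.span_union] at h2
      have e : {x | lo.lt x b} ∪ {b} = {x | lo.le x b} := by
        ext x
        simp only [mem_union, mem_setOf_eq, mem_singleton_iff]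
        exact (@le_iff_lt_or_eq _ lo.toPartialOrder x b).symm
      rwa [e] at h2
  have := lower lo wf.wf r hr univ (fun _ _ _ _ => trivial) (fun b _ => hall b)
  obtain ⟨F, h1, h2, h3⟩ := this
  refine ⟨F, h1, h2, fun z _ => h3 z (self_subset_thickening hr _ ?_)⟩
  simp

theorem main (X : Type) [NormedAddCommGroup X] [NormedSpace ℝ X] :
    ∃ B : Set (Set X), TopologicalSpace.IsTopologicalBasis B ∧
      (∀ s ∈ B, Convex ℝ s) ∧
      ∃ F : ℕ → Set (Set X), B = ⋃ n, F n ∧
        ∀ n : ℕ, ∀ x : X, ∃ U ∈ nhds x,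
          Set.Subsingleton {s : Set X | s ∈ F n ∧ (s ∩ U).Nonempty} := by
  have h := fun k : ℕ => covAll (X := X) (1 / ((k : ℝ) + 1)) (by positivity)
  choose G h1 h2 h3 using h
  obtain ⟨e, he⟩ := exists_surjective_nat (ℕ × (ℕ × ℕ))
  set F : ℕ → Set (Set X) := fun n => {t | ∃ s ∈ G (e n).1 (e n).2,
    t = thickening (min (1 / (((e n).1 : ℝ) + 1)) (1 / (((e n).2.2 : ℝ) + 1) / 3)) s} with hF
  refine ⟨⋃ n, F n, ?_, ?_, F, rfl, ?_⟩
  · refine TopologicalSpace.isTopologicalBasis_of_isOpen_of_nhds ?_ ?_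
    · intro u hu
      obtain ⟨n, s, -, rfl⟩ := mem_iUnion.1 hu
      exact isOpen_thickening
    · intro a u ha hu
      obtain ⟨ε, hε, hb⟩ := Metric.isOpen_iff.1 hu a ha
      obtain ⟨k, hk⟩ := exists_nat_one_div_lt (show 0 < ε / 3 by positivity)
      obtain ⟨p, s, hs, has⟩ := h3 k a trivial
      obtain ⟨n, hn⟩ := he (k, p)
      refine ⟨_, mem_iUnion.2 ⟨n, s, by rw [hn]; exact hs, rfl⟩,
        self_subset_thickening (by positivity) _ has, fun z hz => hb ?_⟩
      obtain ⟨y, hy, hd⟩ := mem_thickening_iff.1 hz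
      have h4 := (h2 k p s hs).2 y hy a has
      have h5 := dist_triangle z y a
      have h6 := hd.trans_le (min_le_left _ _)
      rw [hn] at h6
      rw [mem_ball]
      simp only at h6
      linarith
  · intro u hu
    obtain ⟨n, s, hs, rfl⟩ := mem_iUnion.1 hu
    exact (h2 _ _ s hs).1.thickening _
  · intro n x
    refine ⟨ball x (1 / (((e n).2.2 : ℝ) + 1) / 6), ball_mem_nhds _ (by positivity), ?_⟩
    intro t ht t' ht'
    obtain ⟨⟨s, hs, rfl⟩, u, hu, hux⟩ := ht
    obtain ⟨⟨s', hs', rfl⟩, v, hv, hvx⟩ := ht'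
    obtain ⟨y, hy, hd⟩ := mem_thickening_iff.1 hu
    obtain ⟨y', hy', hd'⟩ := mem_thickening_iff.1 hv
    have h6 := hd.trans_le (min_le_right _ _)
    have h7 := hd'.trans_le (min_le_right _ _)
    rw [mem_ball] at hux hvx
    have h8 := dist_triangle4 y u v y'
    have h9 := dist_triangle_right u v x
    rw [dist_comm y u] at h8
    rw [h1 _ _ s hs s' hs' y hy y' hy' (by linarith)]

end Pool.Agent.H.MP_c77722_an
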